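import Pool.Agent.Lib_helper57.QI.CombDefs
import Pool.Agent.Lib_helper96.QI.ModA

/-!
# The fellow traveller definition of automaticity implies the multiplier definition
-/

set_option autoImplicit false

namespace H57.QI

open ModA H57.Combable

lemma wordDist_le {G : Type} [Group G] (A : Finset G) (g h : G) (l : List G)
    (hl : ∀ s ∈ l, s ∈ A ∨ s⁻¹ ∈ A) (hp : l.prod = g⁻¹ * h) : wordDist A g h ≤ l.length :=
  Nat.sInf_le ⟨l, rfl, hl, hp⟩

lemma exists_word {G : Type} [Group G] {A : Finset G} (hA : Subgroup.closure (A : Set G) = ⊤)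
    (g h : G) : ∃ l : List G, l.length = wordDist A g h ∧ (∀ s ∈ l, s ∈ A ∨ s⁻¹ ∈ A) ∧
      l.prod = g⁻¹ * h := by
  have hne : {n | ∃ l : List G, l.length = n ∧ (∀ s ∈ l, s ∈ A ∨ s⁻¹ ∈ A) ∧
      l.prod = g⁻¹ * h}.Nonempty := by
    have hm : g⁻¹ * h ∈ Subgroup.closure (A : Set G) := by rw [hA]; trivial
    rw [← Subgroup.mem_toSubmonoid, Subgroup.closure_toSubmonoid] at hm
    obtain ⟨l, hl, hp⟩ := Submonoid.exists_list_of_mem_closure hm
    refine ⟨l.length, l, rfl, fun s hs => ?_, hp⟩
    rcases hl s hs with h | h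
    · exact Or.inl h
    · exact Or.inr (Set.mem_inv.1 h)
  exact Nat.sInf_mem hne

/-- the balls of the word metric are finite -/
lemma finite_ball_word {G : Type} [Group G] (A : Finset G) (K : ℕ) :
    {d : G | ∃ l : List G, l.length ≤ K ∧ (∀ s ∈ l, s ∈ A ∨ s⁻¹ ∈ A) ∧ l.prod = d}.Finite := by
  classical
  let B : Finset G := A ∪ A.image (·⁻¹)
  have h1 : {l : List {b : G // b ∈ B} | l.length ≤ K}.Finite := List.finite_length_le _ K
  refine (h1.image fun l => (l.map Subtype.val).prod).subset ?_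
  rintro d ⟨l, hl, hs, rfl⟩
  have hB : ∀ s ∈ l, s ∈ B := by
    intro s hs'
    rcases hs s hs' with h | h
    · exact Finset.mem_union_left _ h
    · exact Finset.mem_union_right _ (Finset.mem_image.2 ⟨s⁻¹, h, inv_inv s⟩)
  refine ⟨l.attachWith (· ∈ B) hB, ?_, ?_⟩
  · simpa using hl
  · simp

theorem isFT_of_isAutomatic {G : Type} [Group G] (h : H57.Combable.IsAutomatic G) : IsFT G := by
  obtain ⟨A, hinv, hgen, L, hL, hs, K, hK⟩ := h
  refine ⟨{a : G // a ∈ A}, inferInstance, Subtype.val, L, _, hL, finite_ball_word A K, hs, ?_⟩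
  intro x u v hu hv hx t
  have h1 : wordDist A (value A u) (value A v) ≤ 1 := by
    have e : (value A u)⁻¹ * value A v = (x.map Subtype.val).getD 1 := by
      unfold value
      rw [← hx]
      group
    cases x with
    | none =>
      refine (wordDist_le A _ _ [] (by simp) ?_).trans (by simp)
      rw [e]; simp
    | some a =>
      refine (wordDist_le A _ _ [a.1] (by simp [a.2]) ?_).trans (by simp)
      rw [e]; simp
  obtain ⟨l, hl, hl2, hl3⟩ := exists_word hgen (value A (u.take t)) (value A (v.take t))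
  exact ⟨l, by rw [hl]; exact hK u hu v hv h1 t, hl2, hl3⟩

/-- **Part 1** -/
theorem isAut_of_isAutomatic {G : Type} [Group G] (h : H57.Combable.IsAutomatic G) : IsAut G :=
  (isFT_of_isAutomatic h).isAut

end H57.QI
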